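import Mathlib
import Pool.Agent.helper23.SUB.Final

/-!
# Counterexamples to Subbarao's conjecture are rare: `O(√x / (log x)^(1/8))`

Let `φ*(n) = ∏_{p^a ‖ n} (p^a - 1)`.  Call `n ≥ 2` exceptional if `φ*(n)` divides `n - 1` and `n` is not a
prime power.  We show that there are at most `C √x / (log x)^(1/8)` exceptional `n ≤ x`.

Idea: if `q_1 < ... < q_r` are the components of an exceptional `n` and `D_i = q_1 ⋯ q_i`, then
`q_{i+1} ≤ 2 r D_i`, whence the density.  An exceptional `n` with the unitary divisor `D` is `0 mod D` and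
`1 mod φ*(D) 2^{ω(n/D)}`.  Taking `D` near `√(x / 2^s)`, `s = ⌊0.37 log log x⌋`, one either gains the factor
`2^s` in the modulus, or `n / D` is one of the few integers with less than `s` prime factors, for
which one counts by `n / D`.
-/

set_option autoImplicit false

namespace Pool.Agent.Results.MP_ca0c05_nt.CountingBound

open SUB

theorem result :
    ∃ C : ℝ, 0 < C ∧ ∀ x : ℝ, 2 ≤ x →
      (Set.ncard {n : ℕ | (n : ℝ) ≤ x ∧ 2 ≤ n ∧
        (∏ p ∈ n.primeFactors, (p ^ n.factorization p - 1)) ∣ n - 1 ∧ ¬ IsPrimePow n} : ℝ) ≤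
        C * Real.sqrt x / Real.log x ^ (1 / 8 : ℝ) := by
  obtain ⟨C, hC, h⟩ := final
  refine ⟨C, hC, fun x hx => ?_⟩
  refine le_trans (le_of_eq ?_) (h x hx)
  congr 2
  ext n
  simp only [Exc, phiStar, Set.mem_ofPred_eq]
  tauto

end Pool.Agent.Results.MP_ca0c05_nt.CountingBound
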