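import Pool.Agent.helper85.SFF.Three
import Pool.Agent.helper85.SFF.TwoB

/-!
# The analogue of Subbarao's conjecture for polynomials over finite fields
-/

namespace Pool.Agent.Results.MP_ca0c05_nt.FunctionFields

open Finset Polynomial UniqueFactorizationMonoid

variable {F : Type*} [Field F] [Fintype F]

open Classical in
/-- the monic irreducible factors of `f` -/
noncomputable def irredFactors (f : F[X]) : Finset F[X] := (normalizedFactors f).toFinset

open Classical in
/-- the degree of the exact power of `P` in `f`: `a * deg P`, `a` the exponent of `P` in `f` -/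
noncomputable def powDeg (f P : F[X]) : ℕ := (normalizedFactors f).count P * P.natDegree

/-- the unitary totient of `f`: the product of `q ^ deg (P ^ a) - 1` over the exact powers
`P ^ a` of the monic irreducible factors of `f`, `q` the number of elements of `F` -/
noncomputable def phiStar (f : F[X]) : ℕ :=
  ∏ P ∈ irredFactors f, (Fintype.card F ^ powDeg f P - 1)

/-- the multiset of the degrees of the exact powers `P ^ a` of the monic irreducible factors -/
noncomputable def degs (f : F[X]) : Multiset ℕ := (irredFactors f).val.map (powDeg f)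

/-- `f` has at least two monic irreducible factors and its unitary totient divides
`q ^ deg f - 1` -/
def Exceptional (f : F[X]) : Prop :=
  f ≠ 0 ∧ 2 ≤ (irredFactors f).card ∧ phiStar f ∣ Fintype.card F ^ f.natDegree - 1

open Classical in
omit [Fintype F] in
theorem mem_iff (f P : F[X]) : P ∈ irredFactors f ↔ P ∈ normalizedFactors f := by
  unfold irredFactors
  rw [Multiset.mem_toFinset]

omit [Fintype F] in
theorem powDeg_pos {f P : F[X]} (hP : P ∈ irredFactors f) : 1 ≤ powDeg f P := by
  classical
  rw [mem_iff] at hP
  have h1 : 1 ≤ (normalizedFactors f).count P := Multiset.one_le_count_iff_mem.2 hP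
  have h2 : 1 ≤ P.natDegree := (irreducible_of_normalized_factor P hP).natDegree_pos
  unfold powDeg
  exact Nat.mul_le_mul h1 h2

omit [Fintype F] in
theorem sum_powDeg {f : F[X]} (hf : f ≠ 0) : ∑ P ∈ irredFactors f, powDeg f P = f.natDegree := by
  classical
  have h1 : f.natDegree = (normalizedFactors f).prod.natDegree :=
    natDegree_eq_of_degree_eq (degree_eq_degree_of_associated (prod_normalizedFactors hf).symm)
  rw [h1, natDegree_multiset_prod _ (fun h => zero_notMem_normalizedFactors f h),
    Finset.sum_multiset_map_count]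
  rfl

omit [Fintype F] in
theorem monic_of_mem {f P : F[X]} (hP : P ∈ irredFactors f) : P.Monic := by
  classical
  rw [mem_iff] at hP
  have h := normalize_normalized_factor P hP
  rw [← h]
  exact monic_normalize (irreducible_of_normalized_factor P hP).ne_zero

theorem deg_two {f : F[X]} (hd : f.natDegree = 2) (h2 : 2 ≤ (irredFactors f).card) :
    f ≠ 0 ∧ phiStar f = (Fintype.card F - 1) ^ 2 := by
  have hf : f ≠ 0 := by rintro rfl; simp at hd
  refine ⟨hf, ?_⟩
  have hs := sum_powDeg hf
  rw [hd] at hs
  have h1 : ∑ _P ∈ irredFactors f, 1 ≤ ∑ P ∈ irredFactors f, powDeg f P :=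
    sum_le_sum fun P hP => powDeg_pos hP
  have hc : (irredFactors f).card = 2 := by
    rw [sum_const, smul_eq_mul, mul_one] at h1
    omega
  have heq : ∑ _P ∈ irredFactors f, 1 = ∑ P ∈ irredFactors f, powDeg f P := by
    rw [sum_const, smul_eq_mul, mul_one, hc, hs]
  have hall := (sum_eq_sum_iff_of_le (fun P hP => powDeg_pos hP)).1 heq
  unfold phiStar
  rw [prod_congr rfl (fun P hP => by rw [← hall P hP, pow_one]), prod_const, hc]

theorem exc_three {f : F[X]} (hF : 3 ≤ Fintype.card F) (h : Exceptional f) :
    Fintype.card F = 3 ∧ f.natDegree = 2 := by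
  classical
  obtain ⟨hf, h2, hdvd⟩ := h
  have hs := sum_powDeg hf
  unfold phiStar at hdvd
  rw [← hs] at hdvd
  have hq := helper85.SFF.q_eq_three hF h2 (fun P hP => powDeg_pos hP) hdvd
  rw [hq] at hdvd
  obtain ⟨hc, hall⟩ := helper85.SFF.three_main h2 (fun P hP => powDeg_pos hP) hdvd
  refine ⟨hq, ?_⟩
  have hc2 : (irredFactors f).card = 2 := by
    rcases hc with hc | hc
    · exact hc
    · exfalso
      have hinj : Set.InjOn (fun P : F[X] => P.coeff 0) (irredFactors f : Set F[X]) := by
        intro P hP Q hQ hPQ
        have hlin : ∀ R ∈ irredFactors f, R = X + C (R.coeff 0) := by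
          intro R hR
          have h1 := hall R hR
          have h2 : R.natDegree = 1 := by
            unfold powDeg at h1
            exact Nat.eq_one_of_mul_eq_one_left h1
          exact (monic_of_mem hR).eq_X_add_C h2
        have hPQ' : P.coeff 0 = Q.coeff 0 := hPQ
        rw [hlin P hP, hlin Q hQ, hPQ']
      have hle : (irredFactors f).card ≤ (univ : Finset F).card :=
        card_le_card_of_injOn (fun P : F[X] => P.coeff 0) (fun _ _ => mem_coe.2 (mem_univ _)) hinj
      rw [card_univ, hq, hc] at hle
      omega
  rw [← hs, sum_congr rfl hall, sum_const, hc2]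
  rfl

theorem exists_exc (hF : Fintype.card F ≤ 3) : ∃ f : F[X], Exceptional f := by
  classical
  have hF2 : 2 ≤ Fintype.card F := Fintype.one_lt_card
  refine ⟨X * (X - C 1), ?_⟩
  set f : F[X] := X * (X - C 1) with hfdef
  have hf : f ≠ 0 := mul_ne_zero X_ne_zero (X_sub_C_ne_zero 1)
  have hd : f.natDegree = 2 := by
    rw [hfdef, natDegree_mul X_ne_zero (X_sub_C_ne_zero 1), natDegree_X, natDegree_X_sub_C]
  have h1 : (X : F[X]) ∈ irredFactors f := by
    rw [mem_iff, mem_normalizedFactors_iff' hf]
    exact ⟨irreducible_X, monic_X.normalize_eq_self, dvd_mul_right _ _⟩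
  have h2 : (X - C 1 : F[X]) ∈ irredFactors f := by
    rw [mem_iff, mem_normalizedFactors_iff' hf]
    exact ⟨irreducible_X_sub_C 1, (monic_X_sub_C 1).normalize_eq_self, dvd_mul_left _ _⟩
  have hne : (X : F[X]) ≠ X - C 1 := by
    intro h
    have := congrArg (fun p : F[X] => p.coeff 0) h
    simp at this
  have hc : 2 ≤ (irredFactors f).card := by
    have : ({X, X - C 1} : Finset F[X]) ⊆ irredFactors f := by
      intro P hP
      rw [mem_insert, mem_singleton] at hP
      rcases hP with rfl | rfl
      · exact h1
      · exact h2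
    calc 2 = ({X, X - C 1} : Finset F[X]).card := (card_pair hne).symm
      _ ≤ _ := card_le_card this
  refine ⟨hf, hc, ?_⟩
  rw [(deg_two hd hc).2, hd]
  obtain h | h : Fintype.card F = 2 ∨ Fintype.card F = 3 := by omega
  · rw [h]; norm_num
  · rw [h]; norm_num

theorem zero_or_one (hF : Fintype.card F = 2) (x : F) : x = 0 ∨ x = 1 := by
  classical
  by_contra hc
  push Not at hc
  have h1 : ({0, 1, x} : Finset F).card = 3 := by
    rw [card_insert_of_notMem, card_insert_of_notMem, card_singleton]
    · simpa using hc.2.symm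
    · simpa using hc.1.symm
  have h2 := card_le_univ ({0, 1, x} : Finset F)
  rw [hF, h1] at h2
  omega

theorem one_add_one (hF : Fintype.card F = 2) : (1 : F) + 1 = 0 := by
  rcases zero_or_one hF ((1 : F) + 1) with h | h
  · exact h
  · exfalso
    have h1 : (1 : F) + 1 = 1 + 0 := by rw [h, add_zero]
    exact one_ne_zero (add_left_cancel h1)

/-- the only irreducible monic quadratic polynomial over the field with two elements -/
theorem quad_eq (hF : Fintype.card F = 2) {P : F[X]} (hP : Irreducible P) (hm : P.Monic)
    (hd : P.natDegree = 2) : P = X ^ 2 + X + 1 := by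
  have hroot : ∀ x : F, P.eval x ≠ 0 := by
    intro x hx
    have h1 := degree_eq_one_of_irreducible_of_root hP hx
    have h2 : P.natDegree = 1 := natDegree_eq_of_degree_eq_some (by simpa using h1)
    omega
  have hc2 : P.coeff 2 = 1 := by
    have := hm.coeff_natDegree
    rwa [hd] at this
  have hev : ∀ x : F, P.eval x = P.coeff 0 + P.coeff 1 * x + x ^ 2 := by
    intro x
    rw [eval_eq_sum_range, hd, sum_range_succ, sum_range_succ, sum_range_one, hc2]
    ring
  have h0 : P.coeff 0 = 1 := by
    rcases zero_or_one hF (P.coeff 0) with h | h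
    · exfalso
      apply hroot 0
      rw [hev, h]
      ring
    · exact h
  have h1 : P.coeff 1 = 1 := by
    rcases zero_or_one hF (P.coeff 1) with h | h
    · exfalso
      apply hroot 1
      rw [hev, h, h0]
      have := one_add_one hF
      rw [zero_mul, add_zero, one_pow]
      exact this
    · exact h
  rw [P.as_sum_range' 3 (by omega), sum_range_succ, sum_range_succ, sum_range_one, hc2, h0, h1]
  simp only [map_one, ← C_mul_X_pow_eq_monomial]
  ring

theorem two_exc {f : F[X]} (hF : Fintype.card F = 2) (h : Exceptional f) :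
    degs f = {1, 1} ∨ degs f = {1, 1, 2} ∨ degs f = {1, 2, 3} := by
  classical
  obtain ⟨hf, h2, hdvd⟩ := h
  have hs := sum_powDeg hf
  unfold phiStar at hdvd
  rw [← hs, hF] at hdvd
  set S1 := (irredFactors f).filter (fun P => powDeg f P = 1) with hS1
  have hlin : ∀ R ∈ irredFactors f, R.natDegree = 1 → R = X + C (R.coeff 0) := by
    intro R hR h1
    exact (monic_of_mem hR).eq_X_add_C h1
  have hS1d : ∀ R ∈ S1, R.natDegree = 1 := by
    intro R hR
    have h1 := (mem_filter.1 hR).2
    unfold powDeg at h1
    exact Nat.eq_one_of_mul_eq_one_left h1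
  have hinj : Set.InjOn (fun P : F[X] => P.coeff 0) (S1 : Set F[X]) := by
    intro P hP Q hQ hPQ
    have hPQ' : P.coeff 0 = Q.coeff 0 := hPQ
    rw [hlin P (mem_filter.1 hP).1 (hS1d P hP), hlin Q (mem_filter.1 hQ).1 (hS1d Q hQ), hPQ']
  have hle : S1.card ≤ (univ : Finset F).card :=
    card_le_card_of_injOn (fun P : F[X] => P.coeff 0) (fun _ _ => mem_coe.2 (mem_univ _)) hinj
  rw [card_univ, hF] at hle
  have hcl := helper85.SFF.two_class h2 (fun P hP => powDeg_pos hP) hdvd hle
  change degs f = _ ∨ degs f = _ ∨ degs f = _ ∨ degs f = _ at hcl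
  rcases hcl with h | h | h | h
  · exact Or.inl h
  · exact Or.inr (Or.inl h)
  · exact Or.inr (Or.inr h)
  · exfalso
    have hc1 : S1.card = 2 := by
      rw [hS1, ← helper85.SFF.count_map_one]
      change (degs f).count 1 = 2
      rw [h]
      decide
    have hc2 : ((irredFactors f).filter (fun P => powDeg f P = 2)).card = 2 := by
      have e1 : ((irredFactors f).filter (fun P => powDeg f P = 2)).card = (degs f).count 2 := by
        unfold degs
        rw [Multiset.count_map]
        simp only [eq_comm (a := 2)]
        rfl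
      rw [e1, h]
      decide
    have himg : S1.image (fun P : F[X] => P.coeff 0) = univ := by
      apply eq_univ_of_card
      rw [card_image_of_injOn hinj, hc1, hF]
    have hall : ∀ P ∈ irredFactors f, P.natDegree = 1 → powDeg f P = 1 := by
      intro P hP hd
      have h3 : P.coeff 0 ∈ S1.image (fun P : F[X] => P.coeff 0) := by
        rw [himg]; exact mem_univ _
      obtain ⟨Q, hQ, hQP⟩ := mem_image.1 h3
      have hQP' : Q.coeff 0 = P.coeff 0 := hQP
      have h4 : P = Q := by
        rw [hlin P hP hd, hlin Q (mem_filter.1 hQ).1 (hS1d Q hQ), hQP']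
      rw [h4]
      exact (mem_filter.1 hQ).2
    have hall2 : ∀ P ∈ (irredFactors f).filter (fun P => powDeg f P = 2),
        P = X ^ 2 + X + 1 := by
      intro P hP
      obtain ⟨hPf, hP2⟩ := mem_filter.1 hP
      have hPn : P ∈ normalizedFactors f := (mem_iff f P).1 hPf
      refine quad_eq hF (irreducible_of_normalized_factor P hPn) (monic_of_mem hPf) ?_
      have h3 : P.natDegree ∣ 2 := by
        rw [← hP2]; unfold powDeg; exact dvd_mul_left _ _
      rcases (Nat.dvd_prime Nat.prime_two).1 h3 with h4 | h4
      · have := hall P hPf h4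
        omega
      · exact h4
    have hle1 : ((irredFactors f).filter (fun P => powDeg f P = 2)).card ≤ 1 := by
      rw [card_le_one]
      intro P hP Q hQ
      rw [hall2 P hP, hall2 Q hQ]
    omega

theorem two_conv {f : F[X]} (hF : Fintype.card F = 2) (m : Multiset ℕ) (hm : 2 ≤ m.card)
    (hd : (m.map (fun x => 2 ^ x - 1)).prod ∣ 2 ^ m.sum - 1) (h : degs f = m) :
    Exceptional f := by
  classical
  have hc : (irredFactors f).card = m.card := by
    rw [← h]; unfold degs; rw [Multiset.card_map]; rfl
  have hf : f ≠ 0 := by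
    rintro rfl
    have : irredFactors (0 : F[X]) = ∅ := by
      unfold irredFactors
      rw [normalizedFactors_zero]
      rfl
    rw [this, card_empty] at hc
    omega
  refine ⟨hf, by omega, ?_⟩
  have h1 : phiStar f = (m.map (fun x => 2 ^ x - 1)).prod := by
    rw [← h]
    unfold phiStar degs
    rw [Multiset.map_map, hF]
    rfl
  have h2 : f.natDegree = m.sum := by
    rw [← sum_powDeg hf, ← h]
    rfl
  rw [h1, h2, hF]
  exact hd

/-- The analogue of Subbarao's question in `F[X]`, all finite fields: `f` is exceptional if and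
only if `F` has three elements, `f` has degree 2 and two distinct monic irreducible factors, or
`F` has two elements and the degrees of the exact powers `P ^ a` of the irreducible factors of `f`
are `1, 1` or `1, 1, 2` or `1, 2, 3`. There is an exceptional polynomial if and only if `F` has at
most three elements. -/
theorem result (F : Type*) [Field F] [Fintype F] :
    (∀ f : F[X], Exceptional f ↔
      (Fintype.card F = 3 ∧ f.natDegree = 2 ∧ 2 ≤ (irredFactors f).card) ∨
      (Fintype.card F = 2 ∧ (degs f = {1, 1} ∨ degs f = {1, 1, 2} ∨ degs f = {1, 2, 3}))) ∧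
    ((∃ f : F[X], Exceptional f) ↔ Fintype.card F ≤ 3) := by
  refine ⟨fun f => ⟨fun h => ?_, ?_⟩, ⟨?_, exists_exc⟩⟩
  · by_cases hF : 3 ≤ Fintype.card F
    · exact Or.inl ⟨(exc_three hF h).1, (exc_three hF h).2, h.2.1⟩
    · have hF2 : 2 ≤ Fintype.card F := Fintype.one_lt_card
      have hF' : Fintype.card F = 2 := by omega
      exact Or.inr ⟨hF', two_exc hF' h⟩
  · rintro (⟨h3, hd, hc⟩ | ⟨h2, hm | hm | hm⟩)
    · obtain ⟨hf, hp⟩ := deg_two hd hc
      refine ⟨hf, hc, ?_⟩
      rw [hp, hd, h3]
      norm_num
    · exact two_conv h2 {1, 1} (by decide) (by decide) hm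
    · exact two_conv h2 {1, 1, 2} (by decide) (by decide) hm
    · exact two_conv h2 {1, 2, 3} (by decide) (by decide) hm
  · rintro ⟨f, hf⟩
    by_contra hc
    have := (exc_three (by omega) hf).1
    omega

end Pool.Agent.Results.MP_ca0c05_nt.FunctionFields
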