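import Mathlib
import Pool.Agent.helper46.BC.PB

open Finset

namespace Pool.Agent.Results.MP_ca0c05_nt.InsideSet

open Pool.Agent.helper46.BC (heavy heavy_sum)

/-- `q/(q-1)` over distinct integers `≥ 2` -/
lemma prod_le (V : Finset ℕ) (h : ∀ q ∈ V, 2 ≤ q) :
    ∏ q ∈ V, q ≤ (V.card + 1) * ∏ q ∈ V, (q - 1) := by
  induction V using Finset.induction_on_max with
  | empty => simp
  | insert a s hlt ih =>
    have has : a ∉ s := fun hmem => lt_irrefl a (hlt a hmem)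
    have ih' := ih fun q hq => h q (Finset.mem_insert_of_mem hq)
    have ha2 := h a (Finset.mem_insert_self a s)
    rw [Finset.prod_insert has, Finset.prod_insert has, Finset.card_insert_of_notMem has]
    have hcard : s.card + 2 ≤ a := by
      have hsub : s ⊆ Finset.Ico 2 a := fun x hx => Finset.mem_Ico.mpr
        ⟨h x (Finset.mem_insert_of_mem hx), hlt x hx⟩
      have := Finset.card_le_card hsub
      rw [Nat.card_Ico] at this
      omega
    obtain ⟨b, rfl⟩ : ∃ b, a = b + 1 := ⟨a - 1, by omega⟩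
    rw [Nat.add_sub_cancel]
    calc (b + 1) * ∏ x ∈ s, x ≤ (b + 1) * ((s.card + 1) * ∏ q ∈ s, (q - 1)) :=
          Nat.mul_le_mul_left _ ih'
      _ = ((b + 1) * (s.card + 1)) * ∏ q ∈ s, (q - 1) := by ring
      _ ≤ ((s.card + 1 + 1) * b) * ∏ q ∈ s, (q - 1) := by
          refine Nat.mul_le_mul_right _ ?_
          have : s.card + 1 ≤ b := by omega
          nlinarith
      _ = (s.card + 1 + 1) * (b * ∏ q ∈ s, (q - 1)) := by ring

/-- the family -/
def fam (S : Finset ℕ) : Finset (Finset ℕ) :=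
  S.powerset.filter (fun I => ∏ q ∈ I, (q - 1) ∣ ∏ q ∈ I, q - 1)

lemma prod_inj {S : Finset ℕ} (hS : ∀ q ∈ S, 2 ≤ q) (cS : (S : Set ℕ).Pairwise Nat.Coprime)
    {I J : Finset ℕ} (hI : I ⊆ S) (hJ : J ⊆ S) (h : ∏ q ∈ I, q = ∏ q ∈ J, q) : I = J := by
  have key : ∀ I J : Finset ℕ, I ⊆ S → J ⊆ S → ∏ q ∈ I, q = ∏ q ∈ J, q → I ⊆ J := by
    intro I J hI hJ h x hx
    by_contra hxJ
    have h1 : x ∣ ∏ q ∈ J, q := by
      rw [← h]
      exact Finset.dvd_prod_of_mem (fun x => x) hx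
    have h2 : Nat.Coprime x (∏ q ∈ J, q) := by
      refine Nat.Coprime.prod_right fun y hy => ?_
      exact cS (by exact_mod_cast hI hx) (by exact_mod_cast hJ hy) (by rintro rfl; exact hxJ hy)
    have h3 : x = 1 := Nat.Coprime.eq_one_of_dvd h2 h1
    have := hS x (hI hx)
    omega
  exact Finset.Subset.antisymm (key I J hI hJ h) (key J I hJ hI h.symm)

lemma list_le {S : Finset ℕ} (hS : ∀ q ∈ S, 2 ≤ q) (cS : (S : Set ℕ).Pairwise Nat.Coprime)
    {V : Finset ℕ} (hV : V ⊆ S) :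
    ((fam S).filter (fun I => V ∈ heavy I)).card ≤ S.card + 2 := by
  have hV2 : ∀ q ∈ V, 2 ≤ q := fun q hq => hS q (hV hq)
  have hP : 0 < ∏ q ∈ V, q := Finset.prod_pos fun q hq => by have := hV2 q hq; omega
  have hQ : 0 < ∏ q ∈ V, (q - 1) := Finset.prod_pos fun q hq => by have := hV2 q hq; omega
  have hPQ := prod_le V hV2
  have hcV : V.card ≤ S.card := Finset.card_le_card hV
  set P := ∏ q ∈ V, q with hPdef
  set Q := ∏ q ∈ V, (q - 1) with hQdef
  -- congruences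
  have hcong : ∀ I ∈ (fam S).filter (fun I => V ∈ heavy I),
      I ⊆ S ∧ P ∣ ∏ q ∈ I, q ∧ Q ∣ ∏ q ∈ I, q - 1 ∧ ∏ q ∈ I, q ≤ P ^ 2 ∧ 0 < ∏ q ∈ I, q := by
    intro I hI
    obtain ⟨h1, h2⟩ := Finset.mem_filter.mp hI
    obtain ⟨h3, h4⟩ := Finset.mem_filter.mp h1
    have hIS := Finset.mem_powerset.mp h3
    obtain ⟨h5, h6⟩ := Finset.mem_filter.mp h2
    have hVI := Finset.mem_powerset.mp h5
    exact ⟨hIS, Finset.prod_dvd_prod_of_subset _ _ _ hVI,
      (Finset.prod_dvd_prod_of_subset _ _ _ hVI).trans h4, h6,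
      Finset.prod_pos fun q hq => by have := hS q (hIS hq); omega⟩
  refine le_trans (Finset.card_le_card_of_injOn (t := Finset.range (S.card + 2))
    (fun I => (∏ q ∈ I, q) / (P * Q)) (fun I hI => ?_) ?_) (by rw [Finset.card_range])
  · obtain ⟨-, -, -, hle, -⟩ := hcong I hI
    simp only [Finset.coe_range, Set.mem_Iio]
    have : (∏ q ∈ I, q) / (P * Q) ≤ V.card + 1 := by
      refine Nat.div_le_of_le_mul ?_
      calc ∏ q ∈ I, q ≤ P ^ 2 := hle
        _ = P * P := sq P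
        _ ≤ P * ((V.card + 1) * Q) := Nat.mul_le_mul_left _ hPQ
        _ = P * Q * (V.card + 1) := by ring
    omega
  · intro I hI J hJ hIJ
    obtain ⟨hIS, h1, h2, -, h0⟩ := hcong I hI
    obtain ⟨hJS, k1, k2, -, k0⟩ := hcong J hJ
    simp only at hIJ
    apply prod_inj hS cS hIS hJS
    set N := ∏ q ∈ I, q
    set M := ∏ q ∈ J, q
    have hco : Nat.Coprime P Q := by
      rw [Nat.coprime_iff_gcd_eq_one]
      have g1 : Nat.gcd P Q ∣ N := (Nat.gcd_dvd_left P Q).trans h1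
      have g2 : Nat.gcd P Q ∣ N - 1 := (Nat.gcd_dvd_right P Q).trans h2
      have g3 : Nat.gcd P Q ∣ N - (N - 1) := Nat.dvd_sub g1 g2
      have : N - (N - 1) = 1 := by omega
      rw [this] at g3
      exact Nat.dvd_one.mp g3
    have e1 : N ≡ M [MOD P] :=
      ((Nat.modEq_zero_iff_dvd).mpr h1).trans ((Nat.modEq_zero_iff_dvd).mpr k1).symm
    have e2 : N ≡ M [MOD Q] :=
      ((Nat.modEq_iff_dvd' h0).mpr h2).symm.trans ((Nat.modEq_iff_dvd' k0).mpr k2)
    have e3 : N ≡ M [MOD P * Q] := (Nat.modEq_and_modEq_iff_modEq_mul hco).mp ⟨e1, e2⟩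
    have h4 := Nat.div_add_mod N (P * Q)
    have h5 := Nat.div_add_mod M (P * Q)
    unfold Nat.ModEq at e3
    rw [← h4, ← h5, hIJ, e3]

theorem main (S : Finset ℕ) (hS : ∀ q ∈ S, 2 ≤ q) (cS : (S : Set ℕ).Pairwise Nat.Coprime) :
    ((fam S).card : ℝ) ≤ 4 * ((S.card : ℝ) + 1) * ((S.card : ℝ) + 2) * (5 / 4) ^ S.card := by
  classical
  set n := S.card with hn
  have hS0 : ∀ q ∈ S, 0 < q := fun q hq => by have := hS q hq; omega
  have hsubS : ∀ I ∈ fam S, I ⊆ S := fun I hI =>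
    Finset.mem_powerset.mp (Finset.mem_filter.mp hI).1
  have h1 : ((fam S).card : ℝ) * (1 / (4 * ((n:ℝ) + 1))) ≤
      ∑ I ∈ fam S, ∑ V ∈ heavy I, ((1:ℝ) / 4) ^ V.card := by
    calc ((fam S).card : ℝ) * (1 / (4 * ((n:ℝ) + 1))) =
        ∑ I ∈ fam S, 1 / (4 * ((n:ℝ) + 1)) := by simp
      _ ≤ _ := by
        refine Finset.sum_le_sum fun I hI => ?_
        refine le_trans ?_ (heavy_sum fun a ha => hS0 a (hsubS I hI ha))
        have : (I.card : ℝ) ≤ n := by exact_mod_cast Finset.card_le_card (hsubS I hI)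
        gcongr
  have h2 : ∑ I ∈ fam S, ∑ V ∈ heavy I, ((1:ℝ) / 4) ^ V.card =
      ∑ V ∈ S.powerset, (((fam S).filter (fun I => V ∈ heavy I)).card : ℝ) *
        ((1:ℝ) / 4) ^ V.card := by
    have e1 : ∀ I ∈ fam S, ∑ V ∈ heavy I, ((1:ℝ) / 4) ^ V.card =
        ∑ V ∈ S.powerset, if V ∈ heavy I then ((1:ℝ) / 4) ^ V.card else 0 := by
      intro I hI
      rw [← Finset.sum_filter]
      refine Finset.sum_congr ?_ fun _ _ => rfl
      ext V
      rw [Finset.mem_filter, Finset.mem_powerset]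
      refine ⟨fun hV => ⟨?_, hV⟩, fun hV => hV.2⟩
      exact (Finset.mem_powerset.mp (Finset.mem_filter.mp hV).1).trans (hsubS I hI)
    rw [Finset.sum_congr rfl e1, Finset.sum_comm]
    refine Finset.sum_congr rfl fun V _ => ?_
    rw [← Finset.sum_filter, Finset.sum_const, nsmul_eq_mul]
  have h3 : ∀ V ∈ S.powerset,
      (((fam S).filter (fun I => V ∈ heavy I)).card : ℝ) * ((1:ℝ) / 4) ^ V.card ≤
      ((n:ℝ) + 2) * ((1:ℝ) / 4) ^ V.card := by
    intro V hV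
    have e1 := list_le hS cS (Finset.mem_powerset.mp hV)
    have e2 : (((fam S).filter (fun I => V ∈ heavy I)).card : ℝ) ≤ (n:ℝ) + 2 := by
      exact_mod_cast e1
    gcongr
  have h4 : ∑ V ∈ S.powerset, ((1:ℝ) / 4) ^ V.card = (5 / 4) ^ n := by
    have := Finset.sum_pow_mul_eq_add_pow ((1:ℝ) / 4) 1 S
    simp only [one_pow, mul_one] at this
    rw [this, ← hn]
    norm_num
  have h5 : ((fam S).card : ℝ) * (1 / (4 * ((n:ℝ) + 1))) ≤ ((n:ℝ) + 2) * (5 / 4) ^ n := by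
    refine h1.trans ?_
    rw [h2]
    refine (Finset.sum_le_sum h3).trans ?_
    rw [← Finset.mul_sum, h4]
  rw [mul_one_div, div_le_iff₀ (by positivity)] at h5
  refine h5.trans (le_of_eq ?_)
  ring

/-- **Solutions inside a given set.**  Let `S` be a set of `m` pairwise coprime integers at least
`2` (for example prime powers).  At most `4 (m+1) (m+2) (5/4)^m` of its `2^m` subsets `I` satisfy
`∏_{q ∈ I} (q - 1) ∣ ∏_{q ∈ I} q - 1`. -/
theorem result (S : Finset ℕ) (hS : ∀ q ∈ S, 2 ≤ q)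
    (cS : (S : Set ℕ).Pairwise Nat.Coprime) :
    ((S.powerset.filter (fun I => ∏ q ∈ I, (q - 1) ∣ ∏ q ∈ I, q - 1)).card : ℝ) ≤
      4 * ((S.card : ℝ) + 1) * ((S.card : ℝ) + 2) * (5 / 4) ^ S.card := main S hS cS

end Pool.Agent.Results.MP_ca0c05_nt.InsideSet
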